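import Pool.Agent.H87.D3.Targets2

set_option autoImplicit false

namespace Pool.Agent.H70.D3

open MeasureTheory Metric Set Filter Topology Pool.Agent.H87.SN Pool.Agent.H87.SH Pool.Agent.H87.AX
  Pool.Agent.H87.D3
open scoped ContDiff RealInnerProductSpace ENNReal

theorem anb_nrm (x : V) : ‖x‖ ^ 2 = x 0 ^ 2 + x 1 ^ 2 + x 2 ^ 2 := by
  rw [EuclideanSpace.norm_sq_eq]
  have h := Fin.sum_univ_three (fun i : Fin 3 => ‖x i‖ ^ 2)
  simp only [Real.norm_eq_abs, sq_abs] at h ⊢
  exact h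

theorem anb_rho_sq (x : V) : rho x ^ 2 = x 0 ^ 2 + x 1 ^ 2 :=
  Real.sq_sqrt (by positivity)

theorem anb_rho_nonneg (x : V) : 0 ≤ rho x := Real.sqrt_nonneg _

theorem anb_rho_cont : Continuous (fun x : V => rho x) := by
  unfold rho
  fun_prop

/-- the triangle inequality in the plane -/
theorem anb_tri (a b c d : ℝ) : Real.sqrt ((a - c) ^ 2 + (b - d) ^ 2) ≤
    Real.sqrt (a ^ 2 + b ^ 2) + Real.sqrt (c ^ 2 + d ^ 2) := by
  have h1 := Real.sq_sqrt (show 0 ≤ a ^ 2 + b ^ 2 by positivity)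
  have h2 := Real.sq_sqrt (show 0 ≤ c ^ 2 + d ^ 2 by positivity)
  have h3 := Real.sqrt_nonneg (a ^ 2 + b ^ 2)
  have h4 := Real.sqrt_nonneg (c ^ 2 + d ^ 2)
  refine Real.sqrt_le_iff.2 ⟨by positivity, ?_⟩
  have h5 : -(a * c + b * d) ≤ Real.sqrt (a ^ 2 + b ^ 2) * Real.sqrt (c ^ 2 + d ^ 2) := by
    rw [← Real.sqrt_mul (by positivity)]
    refine Real.le_sqrt_of_sq_le ?_
    nlinarith [sq_nonneg (a * d - b * c)]
  nlinarith

/-- a point with small horizontal and vertical distance is near -/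
theorem anb_near (x y : V) (A B R : ℝ) (hA : rho x ≤ A) (hB : rho y ≤ B)
    (h2 : (A + B) ^ 2 + (y 2 - x 2) ^ 2 < R ^ 2) (hR : 0 < R) : y ∈ ball x R := by
  rw [mem_ball, dist_eq_norm]
  have h0 : ‖y - x‖ ^ 2 < R ^ 2 := by
    rw [anb_nrm]
    refine lt_of_le_of_lt ?_ h2
    have e0 : (y - x) 0 = y 0 - x 0 := rfl
    have e1 : (y - x) 1 = y 1 - x 1 := rfl
    have e2 : (y - x) 2 = y 2 - x 2 := rfl
    rw [e0, e1, e2]
    have ht := anb_tri (y 0) (y 1) (x 0) (x 1)
    have hs := Real.sq_sqrt (show 0 ≤ (y 0 - x 0) ^ 2 + (y 1 - x 1) ^ 2 by positivity)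
    have hs0 := Real.sqrt_nonneg ((y 0 - x 0) ^ 2 + (y 1 - x 1) ^ 2)
    have h3 : Real.sqrt ((y 0 - x 0) ^ 2 + (y 1 - x 1) ^ 2) ≤ A + B := by
      refine ht.trans ?_
      have hx : Real.sqrt (x 0 ^ 2 + x 1 ^ 2) ≤ A := hA
      have hy : Real.sqrt (y 0 ^ 2 + y 1 ^ 2) ≤ B := hB
      linarith
    nlinarith
  exact lt_of_pow_lt_pow_left₀ 2 hR.le h0

theorem anb_cheb {m : ℕ} (G : V → V →L[ℝ] E m) (f : V → ℝ≥0∞) (S B : Set V) (hS : MeasurableSet S)
    (hSB : S ⊆ B) (k : ℝ≥0∞) (hf : ∀ x ∈ S, k ≤ f x) :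
    k * mu G S ≤ ∫⁻ x in B, f x ∂(mu G) := by
  calc k * mu G S = ∫⁻ _ in S, k ∂(mu G) := (setLIntegral_const _ _).symm
    _ ≤ ∫⁻ x in S, f x ∂(mu G) := setLIntegral_mono' hS hf
    _ ≤ ∫⁻ x in B, f x ∂(mu G) := lintegral_mono_set hSB

theorem pf_ANB (hMUF : T_MUF) (_hBTF : T_BTF) (hLGR : T_LGR) : T_ANB := by
  intro Λ c hΛ hc
  refine ⟨21600 * Λ / c + 4, by positivity, ?_⟩
  intro m G hG h rc hh hh2 hrc hrch hThn x' hx1 hx2
  have hfin := (hMUF m G hG.memG).1
  set S : Set V := ball x' (6 * h) ∩ {x | h < rho x} with hSdef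
  have hSm : MeasurableSet S :=
    measurableSet_ball.inter (measurableSet_lt measurable_const anb_rho_cont.measurable)
  set K : ℝ≥0∞ := ENNReal.ofReal (21600 * Λ / c + 4) * ENNReal.ofReal h with hK
  have hKpos : 0 < (21600 * Λ / c + 4) := by positivity
  have hK0 : K ≠ 0 := by
    rw [hK]
    exact mul_ne_zero (ENNReal.ofReal_pos.2 hKpos).ne' (ENNReal.ofReal_pos.2 hh).ne'
  have hKt : K ≠ ⊤ := ENNReal.mul_ne_top ENNReal.ofReal_ne_top ENNReal.ofReal_ne_top
  rw [← mul_assoc, ← hK]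
  rw [mul_comm, ← ENNReal.div_le_iff_le_mul (Or.inl hK0) (Or.inl hKt)]
  unfold bt
  refine le_iInf fun a => le_iInf fun T => le_iInf fun hT => ?_
  rw [ENNReal.div_le_iff_le_mul (Or.inl hK0) (Or.inl hKt)]
  set I : ℝ≥0∞ := ∫⁻ y in ball x' (8 * h), ENNReal.ofReal (dl a T y) ∂(mu G) with hI
  -- the size of the ball
  have hnx : ‖x'‖ < 1 / 2 := by
    have h1 := anb_nrm x'
    have h2 := anb_rho_sq x'
    have h3 := anb_rho_nonneg x'
    have h4 : ‖x'‖ ^ 2 < (1 / 2) ^ 2 := by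
      rw [h1, ← h2]
      have h5 : rho x' ^ 2 ≤ (1 / 256) ^ 2 := by
        apply pow_le_pow_left₀ h3
        linarith
      have h6 : x' 2 ^ 2 ≤ (25 / 64) ^ 2 := by
        rw [← sq_abs]
        apply pow_le_pow_left₀ (abs_nonneg _)
        linarith
      nlinarith
    exact lt_of_pow_lt_pow_left₀ 2 (by norm_num) h4
  have hball : ball x' (6 * h) ⊆ ball 0 2 := by
    refine ball_subset_ball' ?_
    rw [dist_zero_right]
    linarith
  have hmuS : mu G S ≤ ENNReal.ofReal (Λ * (6 * h)) := by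
    have h1 := hG.den x' (6 * h) (by linarith) hball
    have h2 : mu G (ball x' (6 * h)) ≠ ⊤ := ne_top_of_le_ne_top hfin (measure_mono (subset_univ _))
    calc mu G S ≤ mu G (ball x' (6 * h)) := measure_mono inter_subset_left
      _ = ENNReal.ofReal ((mu G).real (ball x' (6 * h))) := (ENNReal.ofReal_toReal h2).symm
      _ ≤ _ := ENNReal.ofReal_le_ofReal h1
  have h3pos : 0 < h ^ 3 := by positivity
  rcases le_or_gt (ENNReal.ofReal (c / 3600 * h ^ 3)) I with hcase | hcase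
  · -- large moment
    refine hmuS.trans ?_
    have e1 : Λ * (6 * h) ≤ (h ^ 3)⁻¹ * (c / 3600 * h ^ 3) * ((21600 * Λ / c + 4) * h) := by
      have : (h ^ 3)⁻¹ * (c / 3600 * h ^ 3) = c / 3600 := by
        field_simp
      rw [this]
      have : c / 3600 * ((21600 * Λ / c + 4) * h) = 6 * Λ * h + c * h / 900 := by
        field_simp
        ring
      rw [this]
      have : 0 ≤ c * h / 900 := by positivity
      linarith
    refine (ENNReal.ofReal_le_ofReal e1).trans ?_
    rw [ENNReal.ofReal_mul (by positivity), ENNReal.ofReal_mul (by positivity),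
      ENNReal.ofReal_mul hKpos.le, ← hK]
    exact mul_le_mul_left (mul_le_mul_right hcase _) _
  · -- small moment
    have hwin : ∀ z₀ : ℝ, |z₀ - x' 2| ≤ 2 * h → |z₀| + h / 4 ≤ 9 / 16 →
        ∃ x : V, rho x ≤ h / 100 ∧ |x 2 - z₀| < h / 4 ∧ dl a T x ≤ h ^ 2 / 900 := by
      intro z₀ hz1 hz2
      by_contra hno
      push Not at hno
      have hW := hThn z₀ (h / 4) (by linarith) hz2
      set W : Set V := {x | rho x < rc ∧ |x 2 - z₀| < h / 4} with hWdef
      have hWm : MeasurableSet W := by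
        have hc2 : Continuous (fun x : V => |x 2 - z₀|) := by fun_prop
        have m1 : MeasurableSet {x : V | rho x < rc} :=
          measurableSet_lt anb_rho_cont.measurable measurable_const
        have m2 : MeasurableSet {x : V | |x 2 - z₀| < h / 4} :=
          measurableSet_lt hc2.measurable measurable_const
        exact m1.inter m2
      have hWB : W ⊆ ball x' (8 * h) := by
        rintro x ⟨h1, h2⟩
        refine anb_near x' x (h / 4) (h / 100) (8 * h) hx1 (h1.le.trans hrch) ?_ (by linarith)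
        have h3 : |x 2 - x' 2| ≤ 9 / 4 * h := by
          have : x 2 - x' 2 = (x 2 - z₀) + (z₀ - x' 2) := by ring
          rw [this]
          refine (abs_add_le _ _).trans ?_
          linarith
        have h4 : (x 2 - x' 2) ^ 2 ≤ (9 / 4 * h) ^ 2 := by
          rw [← sq_abs]
          exact pow_le_pow_left₀ (abs_nonneg _) h3 2
        nlinarith
      have hch := anb_cheb G (fun y => ENNReal.ofReal (dl a T y)) W _ hWm hWB
        (ENNReal.ofReal (h ^ 2 / 900)) (fun x hx => ENNReal.ofReal_le_ofReal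
          (hno x (hx.1.le.trans hrch) hx.2).le)
      have hWl : ENNReal.ofReal (c * (h / 4)) ≤ mu G W := ENNReal.ofReal_le_of_le_toReal hW
      have h5 : ENNReal.ofReal (c / 3600 * h ^ 3) ≤ I := by
        refine le_trans ?_ hch
        have : c / 3600 * h ^ 3 = h ^ 2 / 900 * (c * (h / 4)) := by ring
        rw [this, ENNReal.ofReal_mul (by positivity)]
        exact mul_le_mul_right hWl _
      exact absurd hcase (not_lt.2 h5)
    have hx2' := abs_le.1 hx2
    obtain ⟨x₁, p1, p2, p3⟩ := hwin (x' 2 + 2 * h) (by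
      rw [add_sub_cancel_left, abs_of_pos (by linarith)]) (by
        have : |x' 2 + 2 * h| ≤ 3 / 8 + 3 * h := by
          rw [abs_le]
          constructor <;> linarith
        linarith)
    obtain ⟨x₂, r1, r2, r3⟩ := hwin (x' 2 - 2 * h) (by
      rw [sub_sub_cancel_left, abs_neg, abs_of_pos (by linarith)]) (by
        have : |x' 2 - 2 * h| ≤ 3 / 8 + 3 * h := by
          rw [abs_le]
          constructor <;> linarith
        linarith)
    obtain ⟨y0, y1, s0, s1, hs, hy, hhd⟩ := hLGR a T x₁ x₂ h (x' 2) hT hh p2 r2 p1 r1 p3 r3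
    have hdl : ∀ x ∈ S, h ^ 2 / 4 ≤ dl a T x := by
      rintro x ⟨hxb, hxr⟩
      have h1 := hhd x
      have h2 : |x 2 - x' 2| < 6 * h := by
        rw [mem_ball, dist_eq_norm] at hxb
        have e2 : (x - x') 2 = x 2 - x' 2 := rfl
        have h3 := anb_nrm (x - x')
        rw [e2] at h3
        have h4 : (x 2 - x' 2) ^ 2 ≤ ‖x - x'‖ ^ 2 := by
          rw [h3]
          nlinarith [sq_nonneg ((x - x') 0), sq_nonneg ((x - x') 1)]
        exact lt_of_le_of_lt (abs_le_of_sq_le_sq h4 (norm_nonneg _)) hxb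
      -- the position of the line
      set w := x 2 - x' 2 with hw
      have h5 : Real.sqrt ((y0 + s0 * x 2) ^ 2 + (y1 + s1 * x 2) ^ 2) ≤ h / 4 := by
        have e0 : y0 + s0 * x 2 = (y0 + s0 * x' 2) - (-(s0 * w)) := by rw [hw]; ring
        have e1 : y1 + s1 * x 2 = (y1 + s1 * x' 2) - (-(s1 * w)) := by rw [hw]; ring
        rw [e0, e1]
        refine (anb_tri _ _ _ _).trans ?_
        have h6 : Real.sqrt ((y0 + s0 * x' 2) ^ 2 + (y1 + s1 * x' 2) ^ 2) ≤ h / 20 := by
          refine Real.sqrt_le_iff.2 ⟨by positivity, ?_⟩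
          nlinarith
        have h7 : Real.sqrt ((-(s0 * w)) ^ 2 + (-(s1 * w)) ^ 2) ≤ h / 5 := by
          refine Real.sqrt_le_iff.2 ⟨by positivity, ?_⟩
          have h8 : w ^ 2 ≤ (6 * h) ^ 2 := by
            rw [← sq_abs]
            exact pow_le_pow_left₀ (abs_nonneg _) h2.le 2
          have h9 : (-(s0 * w)) ^ 2 + (-(s1 * w)) ^ 2 = (s0 ^ 2 + s1 ^ 2) * w ^ 2 := by ring
          rw [h9]
          calc (s0 ^ 2 + s1 ^ 2) * w ^ 2 ≤ 1 / 900 * (6 * h) ^ 2 :=
                mul_le_mul hs h8 (sq_nonneg _) (by norm_num)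
            _ = (h / 5) ^ 2 := by ring
        linarith
      have hh0 : h < rho x := hxr
      have h10 : rho x ≤ Real.sqrt (hd y0 y1 s0 s1 x) +
          Real.sqrt ((y0 + s0 * x 2) ^ 2 + (y1 + s1 * x 2) ^ 2) := by
        have h11 := anb_tri (x 0 - (y0 + s0 * x 2)) (x 1 - (y1 + s1 * x 2)) (-(y0 + s0 * x 2))
          (-(y1 + s1 * x 2))
        have e3 : x 0 - (y0 + s0 * x 2) - -(y0 + s0 * x 2) = x 0 := by ring
        have e4 : x 1 - (y1 + s1 * x 2) - -(y1 + s1 * x 2) = x 1 := by ring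
        rw [e3, e4, neg_sq, neg_sq] at h11
        exact h11
      have h12 : 3 / 4 * h ≤ Real.sqrt (hd y0 y1 s0 s1 x) := by linarith
      have h13 : 0 ≤ hd y0 y1 s0 s1 x := by
        unfold hd
        positivity
      have h14 := Real.sq_sqrt h13
      have h15 : (3 / 4 * h) ^ 2 ≤ hd y0 y1 s0 s1 x := by
        rw [← h14]
        exact pow_le_pow_left₀ (by positivity) h12 2
      nlinarith
    have hSB : S ⊆ ball x' (8 * h) := by
      rintro x ⟨hxb, -⟩
      exact ball_subset_ball (by linarith) hxb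
    have hch := anb_cheb G (fun y => ENNReal.ofReal (dl a T y)) S _ hSm hSB
      (ENNReal.ofReal (h ^ 2 / 4)) (fun x hx => ENNReal.ofReal_le_ofReal (hdl x hx))
    have h16 : mu G S ≤ ENNReal.ofReal (4 / h ^ 2) * I := by
      calc mu G S = ENNReal.ofReal (4 / h ^ 2) * (ENNReal.ofReal (h ^ 2 / 4) * mu G S) := by
            rw [← mul_assoc, ← ENNReal.ofReal_mul (by positivity)]
            have : 4 / h ^ 2 * (h ^ 2 / 4) = 1 := by field_simp
            rw [this, ENNReal.ofReal_one, one_mul]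
        _ ≤ _ := mul_le_mul_right hch _
    refine h16.trans ?_
    have h17 : ENNReal.ofReal (4 / h ^ 2) ≤ ENNReal.ofReal ((h ^ 3)⁻¹) * K := by
      rw [hK, ← ENNReal.ofReal_mul hKpos.le, ← ENNReal.ofReal_mul (by positivity)]
      refine ENNReal.ofReal_le_ofReal ?_
      have e5 : (h ^ 3)⁻¹ * ((21600 * Λ / c + 4) * h) = 4 / h ^ 2 + 21600 * Λ / c / h ^ 2 := by
        field_simp
        ring
      rw [e5]
      have : 0 ≤ 21600 * Λ / c / h ^ 2 := by positivity
      linarith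
    calc ENNReal.ofReal (4 / h ^ 2) * I ≤ ENNReal.ofReal ((h ^ 3)⁻¹) * K * I :=
          mul_le_mul_left h17 _
      _ = _ := by ring

end Pool.Agent.H70.D3
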